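import Pool.Graph.R_seed8.Helper476.NM10

/-!
# MP_947bdc_al: normally monomial `p`-groups have unbounded derived length for EVERY odd prime `p`

The library refutes the existence of the function `f` of Q1 by means of the prime `3`. Here: for every odd
prime `p` and every `d` there is a normally monomial `p`-group of derived length greater than `d`.
-/

set_option autoImplicit false

open Classical

namespace Pool.Agent.Results.MP_947bdc_al.EveryOddPrime

/-- Every irreducible complex character of the finite group `P` is induced from a linear character `lam` of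
a normal subgroup `N`; the induced character is written out by its formula
`g ↦ |N|⁻¹ ∑_x lam°(x g x⁻¹)`. -/
def NormallyMonomial (P : Type) [Group P] [Fintype P] : Prop :=
  ∀ V : FDRep ℂ P, CategoryTheory.Simple V →
    ∃ N : Subgroup P, N.Normal ∧ ∃ lam : N →* ℂˣ, ∀ g : P,
      V.character g = (Nat.card N : ℂ)⁻¹ *
        ∑ x : P, (if h : x * g * x⁻¹ ∈ N then ((lam ⟨x * g * x⁻¹, h⟩ : ℂˣ) : ℂ) else 0)

/-- For every odd prime `p` and every `d` there is a normally monomial `p`-group whose `d`-th derived
subgroup is not trivial. -/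
theorem result (p : ℕ) (hp : p.Prime) (hodd : p ≠ 2) (d : ℕ) :
    ∃ (P : Type) (_ : Group P) (_ : Fintype P), IsPGroup p P ∧ NormallyMonomial P ∧
      derivedSeries P d ≠ ⊥ := by
  have : Fact (Nat.Prime p) := ⟨hp⟩
  have h3 : 3 ≤ p := by
    have := hp.two_le
    omega
  obtain ⟨G, iG, hfin, hpg, hrep, hder⟩ := Pool.Agent.Helper476.NM.main p d h3
  have iF := Fintype.ofFinite G
  refine ⟨G, iG, iF, hpg, ?_, hder⟩
  intro V hV
  obtain ⟨N, hN, ν, h1, h2, h3, v, hv, hv'⟩ := hrep V hV
  let lam0 : N →* ℂ :=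
    { toFun := fun m => ν m.1
      map_one' := h1
      map_mul' := fun s t => h2 s.1 s.2 t.1 t.2 }
  refine ⟨N, hN, lam0.toHomUnits, fun g => ?_⟩
  have := hN
  have := hV
  rw [Pool.Agent.Helper476.NM.char_formula V N ν h1 h2 h3 v hv hv' g]
  have hsum : (∑ x : G, (if x * g * x⁻¹ ∈ N then ν (x * g * x⁻¹) else 0)) =
      ∑ x : G, (if h : x * g * x⁻¹ ∈ N then ((lam0.toHomUnits ⟨x * g * x⁻¹, h⟩ : ℂˣ) : ℂ) else 0) := by
    refine Finset.sum_congr rfl fun x _ => ?_
    by_cases h : x * g * x⁻¹ ∈ N
    · rw [if_pos h, dif_pos h]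
      rfl
    · rw [if_neg h, dif_neg h]
  rw [hsum]

end Pool.Agent.Results.MP_947bdc_al.EveryOddPrime
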